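import Pool.Agent.Helper64.SPX.Par

/-!
# Spectral products with a convex factor

Let `A` be a parallelohedron in the class `Par`: Voronoi cells of the lattices of `ℝ³`, in every dimension
of primitive lattices and of lattices with an obtuse superbase, locked tiles, and all the products and
affine images of such sets.  If `A × B` is spectral, where `B` is bounded and measurable with positive
measure, then `B` is spectral.
-/

set_option autoImplicit false

open MeasureTheory Set
open Pool.Agent.Helper64.SPX

namespace Pool.Agent.Results.MP_61fe1c_an.SpectralProducts

theorem result : ∀ (ι κ : Type) [Fintype ι] [Fintype κ] (A : Set (E ι)) (B : Set (E κ)), Par ι A →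
    MeasurableSet B → Bornology.IsBounded B → 0 < volume B → Spectral (prodSet A B) → Spectral B :=
  fun ι κ _ _ A B hA h1 h2 h3 h4 => par_removable ι A hA κ B h1 h2 h3 h4

end Pool.Agent.Results.MP_61fe1c_an.SpectralProducts
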